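import Pool.Agent.Lib.MP_b07157_agSB.Coord
import Pool.Agent.Lib.MP_b07157_agSA.Defs

/-!
# The root `-|w|/N` along a set of semi-quasi-homogeneous points
-/

noncomputable section

namespace MPb07157SB

open MvPolynomial MPb07157

variable {k n : ℕ}

theorem Od.sum {w : Fin n → ℕ} {e : ℕ} {κ : Type*} (s : Finset κ)
    (φ : κ → MvPowerSeries (Fin n) ℂ) (h : ∀ i ∈ s, Od w e (φ i)) : Od w e (∑ i ∈ s, φ i) := by
  intro β hβ
  rw [map_sum]
  exact Finset.sum_eq_zero fun i hi => h i hi β hβ

theorem od_monomial (w : Fin n → ℕ) (β : Fin n →₀ ℕ) (c : ℂ) :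
    Od w (wt w β) (MvPowerSeries.monomial β c) := by
  classical
  intro β' hβ'
  rw [MvPowerSeries.coeff_monomial, if_neg]
  rintro rfl
  exact lt_irrefl _ hβ'

theorem od_one {w : Fin n → ℕ} (hw : ∀ i, 0 < w i) {φ : MvPowerSeries (Fin n) ℂ}
    (h : MvPowerSeries.constantCoeff φ = 0) : Od w 1 φ := by
  intro β hβ
  have h0 : β = 0 := by
    ext i
    by_contra hi
    have h4 := wt_le_of_ne (a := w) hi
    have := hw i
    omega
  rw [h0, MvPowerSeries.coeff_zero_eq_constantCoeff_apply, h]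

theorem up_monomial (ι : Fin k → Fin n) (v : Fin k →₀ ℕ) :
    ∏ j, (MvPowerSeries.X (ι j) : MvPowerSeries (Fin n) ℂ) ^ (v j) =
      MvPowerSeries.monomial (Finsupp.mapDomain ι v) 1 := by
  rw [← coe_rename_monomial, monomial_eq, map_one, one_mul, Finsupp.prod_fintype _ _ (by simp),
    map_prod, ← coeToMvPowerSeries.ringHom_apply, map_prod]
  refine Finset.prod_congr rfl fun j _ => ?_
  rw [map_pow, map_pow, rename_X, coeToMvPowerSeries.ringHom_apply, coe_X]

/-- The ring homomorphism `x ↦ e(x(p + ·))`. -/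
def th (p : Fin n → ℂ) (e : MvPowerSeries (Fin n) ℂ ≃ₐ[ℂ] MvPowerSeries (Fin n) ℂ) :
    MvPolynomial (Fin n) ℂ →+* MvPowerSeries (Fin n) ℂ :=
  ((e : MvPowerSeries (Fin n) ℂ →+* MvPowerSeries (Fin n) ℂ).comp
    coeToMvPowerSeries.ringHom).comp
      (aeval (fun i => X i + C (p i)) : MvPolynomial (Fin n) ℂ →ₐ[ℂ] MvPolynomial (Fin n) ℂ)

theorem th_apply (p : Fin n → ℂ) (e : MvPowerSeries (Fin n) ℂ ≃ₐ[ℂ] MvPowerSeries (Fin n) ℂ)
    (x : MvPolynomial (Fin n) ℂ) :
    th p e x = e ((translate p x : MvPolynomial (Fin n) ℂ) : MvPowerSeries (Fin n) ℂ) := rfl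

theorem constantCoeff_th (p : Fin n → ℂ)
    (e : MvPowerSeries (Fin n) ℂ ≃ₐ[ℂ] MvPowerSeries (Fin n) ℂ) (x : MvPolynomial (Fin n) ℂ) :
    MvPowerSeries.constantCoeff (th p e x) = eval p x := by
  rw [th_apply, constantCoeff_equiv, Str.constantCoeff_coe, Str.constantCoeff_translate]

/-- The main term and the rest. -/
theorem root_aux {k m : ℕ} (hk : 0 < k) {w : Fin k → ℕ} {N : ℕ} (hN : 0 < N)
    (hw : ∀ j, 0 < w j ∧ w j < N) {f a : MvPolynomial (Fin (k + m)) ℂ}
    {u : Fin k → MvPolynomial (Fin (k + m)) ℂ}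
    {g : MvPolynomial (Fin k) (MvPolynomial (Fin (k + m)) ℂ)} (hag : a * f = eval u g)
    (hgs : ∀ v ∈ g.support, N ≤ ∑ j, w j * v j) {p : Fin (k + m) → ℂ} (ha : eval p a ≠ 0)
    (hu : ∀ j, eval p (u j) = 0)
    (hd : LinearIndependent ℂ fun (j : Fin k) (l : Fin (k + m)) => eval p (pderiv l (u j)))
    (hcr : ∀ y : Fin k → ℂ, y ≠ 0 →
        ∃ j, eval y (pderiv j (weightedHomogeneousComponent w N (map (eval p) g))) ≠ 0)
    {b : Polynomial ℂ}
    (hb : InDnForm (translate p f) 1 (b.map (MvPowerSeries.C (σ := Fin (k + m)) (R := ℂ)))) :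
    b.eval (-(((∑ j, w j : ℕ) : ℂ) / N)) = 0 := by
  classical
  have hq1 : ∀ j, MvPowerSeries.constantCoeff
      ((translate p (u j) : MvPolynomial (Fin (k + m)) ℂ) : MvPowerSeries (Fin (k + m)) ℂ) = 0 := by
    intro j
    rw [Str.constantCoeff_coe, Str.constantCoeff_translate, hu]
  have hq2 : (fun (j : Fin k) (l : Fin (k + m)) => MvPowerSeries.coeff (Finsupp.single l 1)
      ((translate p (u j) : MvPolynomial (Fin (k + m)) ℂ) : MvPowerSeries (Fin (k + m)) ℂ)) =
      fun (j : Fin k) (l : Fin (k + m)) => eval p (pderiv l (u j)) := by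
    funext j l
    rw [coeff_coe, Str.coeff_single_eq, pderiv_translate, Str.constantCoeff_translate]
  obtain ⟨e, he⟩ := exists_coord (q := fun j =>
    ((translate p (u j) : MvPolynomial (Fin (k + m)) ℂ) : MvPowerSeries (Fin (k + m)) ℂ)) hq1
    (by rw [hq2]; exact hd)
  set ι : Fin k → Fin (k + m) := Fin.castAdd m with hι
  have hinj : Function.Injective ι := Fin.castAdd_injective k m
  set F : MvPolynomial (Fin k) ℂ := weightedHomogeneousComponent w N (map (eval p) g) with hF
  -- the power series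
  set G : MvPowerSeries (Fin (k + m)) ℂ := ∑ v ∈ g.support, th p e (coeff v g) *
    MvPowerSeries.monomial (Finsupp.mapDomain ι v) 1 with hG
  have hG1 : th p e a * th p e f = G := by
    rw [← map_mul, hag, eval_eq', map_sum]
    refine Finset.sum_congr rfl fun v _ => ?_
    rw [map_mul, map_prod, ← up_monomial]
    congr 1
    refine Finset.prod_congr rfl fun j _ => ?_
    rw [map_pow, th_apply, he]
  have hunit : IsUnit (th p e a) := by
    rw [MvPowerSeries.isUnit_iff_constantCoeff, constantCoeff_th]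
    exact isUnit_iff_ne_zero.2 ha
  obtain ⟨U, hU⟩ := hunit
  have hb1 : InPs (th p e f) 1 (b.map (MvPowerSeries.C (σ := Fin (k + m)) (R := ℂ))) :=
    inPs_equiv e (inPs_of_form hb)
  have hb2 : InPs G 1 (b.map (MvPowerSeries.C (σ := Fin (k + m)) (R := ℂ))) := by
    refine inPs_unit U⁻¹ ?_ hb1
    rw [← hG1, ← hU, ← mul_assoc, Units.inv_mul, one_mul]
  -- the initial form
  have hcF : ∀ v, coeff v F = if wt w v = N then eval p (coeff v g) else 0 := by
    intro v
    rw [hF, coeff_weightedHomogeneousComponent, coeff_map, Finsupp.weight_apply,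
      Finsupp.sum_fintype v (fun i c => c • w i) (by simp)]
    have h1 : ∑ i, v i • w i = wt w v := by
      unfold wt
      exact Finset.sum_congr rfl fun i _ => by rw [smul_eq_mul, mul_comm]
    rw [h1]
  have hFhom : F.IsWeightedHomogeneous w N := weightedHomogeneousComponent_isWeightedHomogeneous _ _
  have hF0 : F ≠ 0 := by
    intro h0
    obtain ⟨j, hj⟩ := hcr (fun _ => 1) (fun h => one_ne_zero (congrFun h ⟨0, hk⟩))
    apply hj
    rw [h0, map_zero, map_zero]
  have hupF : up ι F = ∑ v ∈ g.support, MvPowerSeries.C (coeff v F) *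
      MvPowerSeries.monomial (Finsupp.mapDomain ι v) 1 := by
    have h1 : F = ∑ v ∈ g.support, monomial v (coeff v F) := by
      conv_lhs => rw [← support_sum_monomial_coeff F]
      refine Finset.sum_subset (fun v hv => ?_) fun v _ hv => ?_
      · rw [mem_support_iff] at hv ⊢
        intro h0
        apply hv
        rw [hcF, h0, map_zero, ite_self]
      · rw [notMem_support_iff.1 hv, map_zero]
    have h2 : up ι F = coeToMvPowerSeries.ringHom (rename ι F) := rfl
    rw [h2]
    conv_lhs => rw [h1]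
    rw [map_sum, map_sum]
    refine Finset.sum_congr rfl fun v _ => ?_
    rw [coeToMvPowerSeries.ringHom_apply, coe_rename_monomial, ← MvPowerSeries.smul_eq_C_mul,
      ← map_smul, smul_eq_mul, mul_one]
  set h : MvPowerSeries (Fin (k + m)) ℂ := G - up ι F with hh
  have hh1 : h = ∑ v ∈ g.support, (th p e (coeff v g) - MvPowerSeries.C (coeff v F)) *
      MvPowerSeries.monomial (Finsupp.mapDomain ι v) 1 := by
    rw [hh, hG, hupF, ← Finset.sum_sub_distrib]
    exact Finset.sum_congr rfl fun v _ => by ring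
  -- the weights
  set w1 : Fin (k + m) → ℕ := fun i => Fin.addCases (motive := fun _ => ℕ) w (fun _ => 1) i
    with hw1d
  set w0 : Fin (k + m) → ℕ := fun i => Fin.addCases (motive := fun _ => ℕ) w (fun _ => 0) i
    with hw0d
  have hw1 : ∀ i, w1 (ι i) = w i := fun i => Fin.addCases_left _
  have hw0 : ∀ i, w0 (ι i) = w i := fun i => Fin.addCases_left _
  have hv0 : ∀ v, (∀ i, ι i ≠ v) → w0 v = 0 := by
    intro v
    refine Fin.addCases (fun j hj => absurd rfl (hj j)) (fun r _ => ?_) v
    exact Fin.addCases_right _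
  have hpos1 : ∀ i, 0 < w1 i := by
    intro i
    refine Fin.addCases (fun j => ?_) (fun r => ?_) i
    · show 0 < w1 (ι j)
      rw [hw1]
      exact (hw j).1
    · have h1 : w1 (Fin.natAdd k r) = 1 := Fin.addCases_right _
      rw [h1]
      exact one_pos
  have ho1 : Od w1 (N + 1) h := by
    rw [hh1]
    refine Od.sum _ _ fun v hv => ?_
    have h1 := od_monomial w1 (Finsupp.mapDomain ι v) 1
    rw [wt_mapDomain hinj hw1] at h1
    have h2 : N ≤ wt w v := hgs v hv
    rcases h2.eq_or_lt with h3 | h3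
    · have h4 : MvPowerSeries.constantCoeff
          (th p e (coeff v g) - MvPowerSeries.C (coeff v F)) = 0 := by
        rw [map_sub, constantCoeff_th, MvPowerSeries.constantCoeff_C, hcF, if_pos h3.symm,
          sub_self]
      exact ((od_one hpos1 h4).mul h1).mono (by omega)
    · exact ((od_zero _).mul h1).mono (by omega)
  have ho0 : Od w0 N h := by
    rw [hh1]
    refine Od.sum _ _ fun v hv => ?_
    have h1 := od_monomial w0 (Finsupp.mapDomain ι v) 1
    rw [wt_mapDomain hinj hw0] at h1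
    have h2 : N ≤ wt w v := hgs v hv
    exact ((od_zero _).mul h1).mono (by omega)
  have hα : (((∑ j, w j : ℕ) : ℂ) / N) * N = ∑ j, (w j : ℂ) := by
    rw [div_mul_cancel₀ _ (by exact_mod_cast hN.ne')]
    push_cast
    rfl
  have hne : NonEx F (((∑ j, w j : ℕ) : ℂ) / N) := by
    refine nonEx_of_isolated (fun j => (hw j).1) (fun j => (hw j).2) hk hFhom ?_ hα
    intro y hy
    by_contra hy0
    obtain ⟨j, hj⟩ := hcr y hy0
    exact hj (hy j)
  refine root_of_inPs (fun j => (hw j).1) (fun j => (hw j).2) hN hF0 hFhom hne hinj hw1 hw0 hv0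
    ho1 ho0 ?_
  have h1 : up ι F + h = G := by
    rw [hh]
    ring
  rw [h1]
  exact hb2

end MPb07157SB

namespace MPb07157

open MvPolynomial

variable {n k : ℕ}

/-- **Each local Bernstein–Sato polynomial has the root `-|w|/N`** at the points of a set along
which the polynomial is semi-quasi-homogeneous. -/
theorem SqA.root {f : MvPolynomial (Fin n) ℂ} (hf : f ≠ 0) {W : Set (Fin n → ℂ)} {w : Fin k → ℕ}
    {N : ℕ} (h : SqhAlong f W w N) {p : Fin n → ℂ} (hp : p ∈ W) {b : Polynomial ℂ}
    (hb : InDnForm (translate p f) 1 (b.map (MvPowerSeries.C (σ := Fin n) (R := ℂ)))) :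
    b.eval (-((∑ j, w j : ℕ) : ℂ) / N) = 0 := by
  obtain ⟨hN, hw, a, u, g, hag, hgs, hW⟩ := h
  obtain ⟨ha, hu, hd, hcr⟩ := hW p hp
  rcases Nat.eq_zero_or_pos k with rfl | hk
  · exfalso
    have h1 : g = 0 := by
      by_contra hne
      obtain ⟨v, hv⟩ := support_nonempty.2 hne
      have h2 := hgs v hv
      rw [Finset.univ_eq_empty, Finset.sum_empty] at h2
      omega
    rw [h1, map_zero] at hag
    rcases mul_eq_zero.1 hag with h2 | h2
    · exact ha (by rw [h2, map_zero])
    · exact hf h2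
  · have hkn : k ≤ n := by
      have h1 := hd.fintype_card_le_finrank
      rwa [Fintype.card_fin, Module.finrank_fin_fun] at h1
    obtain ⟨m, rfl⟩ : ∃ m, n = k + m := ⟨n - k, by omega⟩
    rw [neg_div]
    exact MPb07157SB.root_aux hk hN hw hag hgs ha hu hd hcr hb

end MPb07157
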