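import Pool.Agent.Lib.MP_b07157_agSB.Fn4
import Pool.Agent.Lib.MP_b07157_agM.StrR

/-!
# Formal coordinates
-/

noncomputable section

namespace MPb07157SB

open MvPolynomial MPb07157

variable {k n : ℕ}

/-- A unit factor does not matter. -/
theorem inPs_unit {F G : MvPowerSeries (Fin n) ℂ} (u : (MvPowerSeries (Fin n) ℂ)ˣ) (hF : F = u * G)
    {b : Polynomial ℂ} (hb : InPs F 1 (b.map (MvPowerSeries.C (σ := Fin n) (R := ℂ)))) :
    InPs G 1 (b.map (MvPowerSeries.C (σ := Fin n) (R := ℂ))) := by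
  have h1 := hb.unit_pow (m := 1) one_pos u (by rw [pow_one]; exact hF)
  set v : MvPowerSeries (Fin n) ℂ := ((u⁻¹ : (MvPowerSeries (Fin n) ℂ)ˣ) : MvPowerSeries (Fin n) ℂ)
    with hv
  have huv : (u : MvPowerSeries (Fin n) ℂ) * v = 1 := Units.mul_inv u
  refine (h1.mul (Polynomial.C (u : MvPowerSeries (Fin n) ℂ))).of_eq (by ring) ?_
  rw [← mul_assoc, ← map_mul, pow_one, Nat.sub_self, pow_zero, mul_one, huv, map_one, one_mul,
    Nat.cast_one, inv_one, map_one, map_one, one_mul, Polynomial.comp_X]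

/-- A change of coordinates. -/
theorem inPs_equiv {F : MvPowerSeries (Fin n) ℂ}
    (e : MvPowerSeries (Fin n) ℂ ≃ₐ[ℂ] MvPowerSeries (Fin n) ℂ)
    {b : Polynomial ℂ} (hb : InPs F 1 (b.map (MvPowerSeries.C (σ := Fin n) (R := ℂ)))) :
    InPs (e F) 1 (b.map (MvPowerSeries.C (σ := Fin n) (R := ℂ))) := by
  refine (hb.equiv e).of_eq rfl ?_
  refine Polynomial.ext fun j => ?_
  rw [Polynomial.coeff_map, Polynomial.coeff_map]
  exact e.commutes _

theorem exists_extend {d : Fin k → Fin n → ℂ} (hd : LinearIndependent ℂ d) (m : ℕ)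
    (hm : k + m ≤ n) : ∃ v : Fin (k + m) → Fin n → ℂ, LinearIndependent ℂ v ∧
      ∀ j, v (Fin.castAdd m j) = d j := by
  induction m with
  | zero => exact ⟨d, hd, fun j => rfl⟩
  | succ m ih =>
    obtain ⟨v, hv, hv'⟩ := ih (by omega)
    obtain ⟨x, hx⟩ := exists_linearIndependent_snoc_of_lt_finrank hv (by
      rw [Module.finrank_fin_fun]
      omega)
    refine ⟨Fin.snoc v x, hx, fun j => ?_⟩
    rw [← hv' j]
    exact Fin.snoc_castSucc (α := fun _ => Fin n → ℂ) x v (Fin.castAdd m j)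

/-- Coordinates `û_j` and linear forms. -/
theorem exists_coord {k m : ℕ} {q : Fin k → MvPowerSeries (Fin (k + m)) ℂ}
    (hq : ∀ j, MvPowerSeries.constantCoeff (q j) = 0)
    (hd : LinearIndependent ℂ fun (j : Fin k) (l : Fin (k + m)) =>
      MvPowerSeries.coeff (Finsupp.single l 1) (q j)) :
    ∃ e : MvPowerSeries (Fin (k + m)) ℂ ≃ₐ[ℂ] MvPowerSeries (Fin (k + m)) ℂ,
      ∀ j, e (q j) = MvPowerSeries.X (Fin.castAdd m j) := by
  classical
  obtain ⟨v, hv, hv'⟩ := exists_extend hd m le_rfl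
  let a : Fin (k + m) → MvPowerSeries (Fin (k + m)) ℂ := fun i =>
    Fin.addCases (motive := fun _ => MvPowerSeries (Fin (k + m)) ℂ) q
      (fun r => ∑ l, MvPowerSeries.C (v (Fin.natAdd k r) l) * MvPowerSeries.X l) i
  have ha1 : ∀ j, a (Fin.castAdd m j) = q j := fun j => Fin.addCases_left _
  have ha2 : ∀ r, a (Fin.natAdd k r) =
      ∑ l, MvPowerSeries.C (v (Fin.natAdd k r) l) * MvPowerSeries.X l := fun r =>
    Fin.addCases_right _
  have h0 : ∀ i, MvPowerSeries.constantCoeff (a i) = 0 := by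
    intro i
    refine Fin.addCases (fun j => ?_) (fun r => ?_) i
    · rw [ha1, hq]
    · rw [ha2, map_sum]
      refine Finset.sum_eq_zero fun l _ => ?_
      rw [map_mul, MvPowerSeries.constantCoeff_X, mul_zero]
  have h1 : ∀ i l, MvPowerSeries.coeff (Finsupp.single l 1) (a i) = v i l := by
    intro i l
    refine Fin.addCases (fun j => ?_) (fun r => ?_) i
    · rw [ha1, hv']
    · rw [ha2, map_sum]
      simp only [MvPowerSeries.coeff_C_mul, MvPowerSeries.coeff_X]
      rw [Finset.sum_eq_single l]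
      · rw [if_pos rfl, mul_one]
      · intro l' _ hl'
        rw [if_neg, mul_zero]
        intro hh
        exact hl' (Finsupp.single_left_injective one_ne_zero hh).symm
      · intro hh
        exact absurd (Finset.mem_univ _) hh
  have hdet : (Matrix.of fun i l => MvPowerSeries.coeff (Finsupp.single l 1) (a i)).det ≠ 0 := by
    have h2 : (Matrix.of fun i l => MvPowerSeries.coeff (Finsupp.single l 1) (a i)) =
        Matrix.of v := by
      ext i l
      exact h1 i l
    rw [h2, ← isUnit_iff_ne_zero, ← Matrix.isUnit_iff_isUnit_det,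
      ← Matrix.linearIndependent_rows_iff_isUnit]
    exact hv
  obtain ⟨e, he⟩ := IFT.exists_equiv h0 hdet
  refine ⟨e.symm, fun j => ?_⟩
  rw [AlgEquiv.symm_apply_eq, ← ha1]
  have h3 := he (X (Fin.castAdd m j))
  rw [coe_X, aeval_X] at h3
  exact h3.symm

end MPb07157SB
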