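import Pool.Agent.Lib.MP_b07157_agI.SqR3
import Pool.Agent.Lib.MP_b07157_agE.EB

/-!
# A root of the Bernstein–Sato polynomial along a smooth locus: the functionals

Power series in `n` variables `x`; the variables `x_(ι j)`, `j : Fin k`, are called `u_j`, the
others `v`. `F(u)` is weighted homogeneous of weight `N`.
-/

noncomputable section

namespace MPb07157SB

open MvPolynomial MPb07157 MPb07157.Sq

variable {k n : ℕ}

/-- All terms have weight at least `e`. -/
def Od (w : Fin n → ℕ) (e : ℕ) (φ : MvPowerSeries (Fin n) ℂ) : Prop :=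
  ∀ β : Fin n →₀ ℕ, wt w β < e → MvPowerSeries.coeff β φ = 0

variable {w : Fin n → ℕ}

theorem od_zero (φ : MvPowerSeries (Fin n) ℂ) : Od w 0 φ := fun _ h => absurd h (Nat.not_lt_zero _)

theorem Od.mul {e e' : ℕ} {φ ψ : MvPowerSeries (Fin n) ℂ} (h : Od w e φ) (h' : Od w e' ψ) :
    Od w (e + e') (φ * ψ) := by
  classical
  intro β hβ
  rw [MvPowerSeries.coeff_mul]
  refine Finset.sum_eq_zero fun p hp => ?_
  rw [Finset.HasAntidiagonal.mem_antidiagonal] at hp
  rw [← hp, wt_add] at hβ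
  rcases lt_or_ge (wt w p.1) e with h1 | h1
  · rw [h _ h1, zero_mul]
  · rw [h' _ (by omega), mul_zero]

theorem Od.pow {e : ℕ} {φ : MvPowerSeries (Fin n) ℂ} (h : Od w e φ) (j : ℕ) :
    Od w (e * j) (φ ^ j) := by
  induction j with
  | zero => exact od_zero _
  | succ j ih =>
    rw [pow_succ, Nat.mul_succ]
    exact ih.mul h

theorem Od.mono {e e' : ℕ} (hee : e' ≤ e) {φ : MvPowerSeries (Fin n) ℂ} (h : Od w e φ) :
    Od w e' φ := fun β hβ => h β (lt_of_lt_of_le hβ hee)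

theorem Od.add {e : ℕ} {φ ψ : MvPowerSeries (Fin n) ℂ} (h : Od w e φ) (h' : Od w e ψ) :
    Od w e (φ + ψ) := fun β hβ => by rw [map_add, h β hβ, h' β hβ, add_zero]

theorem wt_single (w : Fin n → ℕ) (i : Fin n) : wt w (Finsupp.single i 1) = w i := by
  unfold wt
  rw [Finset.sum_eq_single i]
  · simp
  · intro j _ hj
    rw [Finsupp.single_apply, if_neg hj.symm, mul_zero]
  · intro h
    exact absurd (Finset.mem_univ i) h

theorem Od.pderiv {e : ℕ} {φ : MvPowerSeries (Fin n) ℂ} (h : Od w e φ) (i : Fin n) :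
    Od w (e - w i) (MvPowerSeries.pderiv ℂ i φ) := by
  intro β hβ
  rw [MvPowerSeries.coeff_pderiv, h, zero_mul]
  rw [wt_add, wt_single]
  omega

/-- The exponents of weight `e`. -/
def ex (w : Fin k → ℕ) (e : ℕ) : Finset (Fin k →₀ ℕ) :=
  (Finset.Icc 0 (Finsupp.equivFunOnFinite.symm fun _ => e)).filter fun ν => wt w ν = e

theorem mem_ex {w : Fin k → ℕ} (hw : ∀ i, 0 < w i) {e : ℕ} {ν : Fin k →₀ ℕ} :
    ν ∈ ex w e ↔ wt w ν = e := by
  unfold ex
  rw [Finset.mem_filter, Finset.mem_Icc]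
  constructor
  · exact fun h => h.2
  · intro h
    refine ⟨⟨zero_le, fun i => ?_⟩, h⟩
    show ν i ≤ e
    rw [← h]
    unfold wt
    calc ν i ≤ w i * ν i := Nat.le_mul_of_pos_left _ (hw i)
      _ ≤ _ := Finset.single_le_sum (f := fun j => w j * ν j) (fun _ _ => Nat.zero_le _)
        (Finset.mem_univ i)

/-- The part of weight `e` (in `u`) of the coefficient of `x^γ`. -/
def tr (ι : Fin k → Fin n) (w : Fin k → ℕ) (γ : Fin n →₀ ℕ) (e : ℕ)
    (φ : MvPowerSeries (Fin n) ℂ) : MvPolynomial (Fin k) ℂ :=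
  ∑ ν ∈ ex w e, monomial ν (MvPowerSeries.coeff (Finsupp.mapDomain ι ν + γ) φ)

section tr

variable {ι : Fin k → Fin n} {w : Fin k → ℕ} {γ : Fin n →₀ ℕ} {e : ℕ}

theorem coeff_tr (hw : ∀ i, 0 < w i) (φ : MvPowerSeries (Fin n) ℂ) (ν : Fin k →₀ ℕ) :
    coeff ν (tr ι w γ e φ) =
      if wt w ν = e then MvPowerSeries.coeff (Finsupp.mapDomain ι ν + γ) φ else 0 := by
  classical
  unfold tr
  rw [coeff_sum]
  simp only [coeff_monomial]
  rw [Finset.sum_ite_eq']
  by_cases h : wt w ν = e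
  · rw [if_pos ((mem_ex hw).2 h), if_pos h]
  · rw [if_neg (fun h' => h ((mem_ex hw).1 h')), if_neg h]

theorem tr_add (φ ψ : MvPowerSeries (Fin n) ℂ) :
    tr ι w γ e (φ + ψ) = tr ι w γ e φ + tr ι w γ e ψ := by
  unfold tr
  rw [← Finset.sum_add_distrib]
  refine Finset.sum_congr rfl fun ν _ => ?_
  rw [map_add, map_add]

theorem tr_C_mul (c : ℂ) (φ : MvPowerSeries (Fin n) ℂ) :
    tr ι w γ e (MvPowerSeries.C c * φ) = C c * tr ι w γ e φ := by
  unfold tr
  rw [Finset.mul_sum]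
  refine Finset.sum_congr rfl fun ν _ => ?_
  rw [MvPowerSeries.coeff_C_mul, C_mul_monomial]

theorem tr_eq_zero {φ : MvPowerSeries (Fin n) ℂ}
    (h : ∀ ν : Fin k →₀ ℕ, wt w ν = e →
      MvPowerSeries.coeff (Finsupp.mapDomain ι ν + γ) φ = 0) (hw : ∀ i, 0 < w i) :
    tr ι w γ e φ = 0 := by
  unfold tr
  refine Finset.sum_eq_zero fun ν hν => ?_
  rw [h ν ((mem_ex hw).1 hν), map_zero]

theorem wt_mapDomain (hι : Function.Injective ι) {w1 : Fin n → ℕ} (hw1 : ∀ i, w1 (ι i) = w i)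
    (ν : Fin k →₀ ℕ) : wt w1 (Finsupp.mapDomain ι ν) = wt w ν := by
  classical
  unfold wt
  have h1 : ∀ j, j ∉ Finset.univ.image ι → w1 j * (Finsupp.mapDomain ι ν) j = 0 := by
    intro j hj
    rw [Finsupp.mapDomain_of_notMem_range, mul_zero]
    rintro ⟨i, rfl⟩
    exact hj (Finset.mem_image_of_mem _ (Finset.mem_univ _))
  rw [← Finset.sum_subset (Finset.subset_univ (Finset.univ.image ι)) fun j _ hj => h1 j hj,
    Finset.sum_image fun i _ j _ h => hι h]
  refine Finset.sum_congr rfl fun i _ => ?_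
  rw [hw1, Finsupp.mapDomain_apply hι]

theorem tr_zero : tr ι w γ e 0 = 0 := by
  unfold tr
  refine Finset.sum_eq_zero fun ν _ => ?_
  rw [map_zero, map_zero]

theorem tr_sum {κ : Type*} (s : Finset κ) (φ : κ → MvPowerSeries (Fin n) ℂ) :
    tr ι w γ e (∑ i ∈ s, φ i) = ∑ i ∈ s, tr ι w γ e (φ i) := by
  classical
  induction s using Finset.induction_on with
  | empty => simp [tr_zero]
  | insert a s ha ih => rw [Finset.sum_insert ha, Finset.sum_insert ha, tr_add, ih]

theorem tr_monomial_mul (hι : Function.Injective ι) (hγ : ∀ i, γ (ι i) = 0) (hw : ∀ i, 0 < w i)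
    {d : ℕ} {μ : Fin k →₀ ℕ} (hμ : wt w μ = d) (c : ℂ) (φ : MvPowerSeries (Fin n) ℂ) :
    tr ι w γ (d + e) (MvPowerSeries.monomial (Finsupp.mapDomain ι μ) c * φ) =
      monomial μ c * tr ι w γ e φ := by
  classical
  ext ν
  rw [coeff_tr hw, coeff_monomial_mul', MvPowerSeries.coeff_monomial_mul]
  by_cases h : μ ≤ ν
  · obtain ⟨ν', rfl⟩ := exists_add_of_le h
    have h1 : Finsupp.mapDomain ι μ ≤ Finsupp.mapDomain ι (μ + ν') + γ := by
      rw [Finsupp.mapDomain_add, add_assoc]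
      exact le_self_add
    have h2 : Finsupp.mapDomain ι (μ + ν') + γ - Finsupp.mapDomain ι μ =
        Finsupp.mapDomain ι ν' + γ := by
      rw [Finsupp.mapDomain_add, add_assoc, add_tsub_cancel_left]
    rw [if_pos h1, if_pos h, h2, add_tsub_cancel_left, coeff_tr hw, wt_add, hμ]
    by_cases h3 : wt w ν' = e
    · rw [if_pos h3, if_pos (by omega)]
    · rw [if_neg h3, if_neg (by omega), mul_zero]
  · rw [if_neg h, if_neg (c := Finsupp.mapDomain ι μ ≤ _), ite_self]
    intro h1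
    apply h
    intro i
    have h2 := h1 (ι i)
    rw [Finsupp.add_apply, Finsupp.mapDomain_apply hι, Finsupp.mapDomain_apply hι, hγ,
      add_zero] at h2
    exact h2

theorem coe_rename_monomial (μ : Fin k →₀ ℕ) (c : ℂ) :
    ((rename ι (monomial μ c) : MvPolynomial (Fin n) ℂ) : MvPowerSeries (Fin n) ℂ) =
      MvPowerSeries.monomial (Finsupp.mapDomain ι μ) c := by
  rw [rename_monomial, coe_monomial]

/-- Multiplication by a polynomial in `u`. -/
theorem tr_mul (hι : Function.Injective ι) (hγ : ∀ i, γ (ι i) = 0) (hw : ∀ i, 0 < w i) {d : ℕ}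
    {P : MvPolynomial (Fin k) ℂ} (hP : ∀ v ∈ P.support, wt w v = d)
    (φ : MvPowerSeries (Fin n) ℂ) :
    tr ι w γ (d + e) (((rename ι P : MvPolynomial (Fin n) ℂ) : MvPowerSeries (Fin n) ℂ) * φ) =
      P * tr ι w γ e φ := by
  classical
  have h1 : ((rename ι P : MvPolynomial (Fin n) ℂ) : MvPowerSeries (Fin n) ℂ) =
      ∑ v ∈ P.support, MvPowerSeries.monomial (Finsupp.mapDomain ι v) (coeff v P) := by
    conv_lhs => rw [← support_sum_monomial_coeff P, map_sum]
    rw [← coeToMvPowerSeries.ringHom_apply, map_sum]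
    refine Finset.sum_congr rfl fun v _ => ?_
    rw [coeToMvPowerSeries.ringHom_apply, coe_rename_monomial]
  conv_rhs => rw [← support_sum_monomial_coeff P]
  rw [h1, Finset.sum_mul, Finset.sum_mul, tr_sum]
  exact Finset.sum_congr rfl fun v hv => tr_monomial_mul hι hγ hw (hP v hv) _ φ

theorem tr_pderiv (hι : Function.Injective ι) (hγ : ∀ i, γ (ι i) = 0) (hw : ∀ i, 0 < w i)
    (i : Fin k) (φ : MvPowerSeries (Fin n) ℂ) :
    tr ι w γ e (MvPowerSeries.pderiv ℂ (ι i) φ) = pderiv i (tr ι w γ (e + w i) φ) := by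
  classical
  ext ν
  rw [coeff_tr hw, coeff_pderiv, coeff_tr hw, wt_add, MPb07157SB.wt_single,
    MvPowerSeries.coeff_pderiv, Finsupp.add_apply, Finsupp.mapDomain_apply hι, hγ, add_zero,
    Finsupp.mapDomain_add, Finsupp.mapDomain_single, add_right_comm]
  by_cases h : wt w ν = e
  · rw [if_pos h, if_pos (by omega)]
  · rw [if_neg h, if_neg (by omega), zero_mul]

theorem tr_pderiv' (hw : ∀ i, 0 < w i) {v : Fin n} (hv : ∀ i, ι i ≠ v)
    (φ : MvPowerSeries (Fin n) ℂ) :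
    tr ι w γ e (MvPowerSeries.pderiv ℂ v φ) =
      C ((γ v : ℂ) + 1) * tr ι w (γ + Finsupp.single v 1) e φ := by
  classical
  ext ν
  have h0 : (Finsupp.mapDomain ι ν) v = 0 := by
    refine Finsupp.mapDomain_of_notMem_range _ _ ?_
    rintro ⟨i, hi⟩
    exact hv i hi
  rw [coeff_tr hw, coeff_C_mul, coeff_tr hw, MvPowerSeries.coeff_pderiv, Finsupp.add_apply, h0,
    zero_add, add_assoc]
  by_cases h : wt w ν = e
  · rw [if_pos h, if_pos h, mul_comm]
  · rw [if_neg h, if_neg h, mul_zero]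

end tr

end MPb07157SB
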