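import Pool.Agent.Lib.MP_b07157_agSB.Fn

/-!
# A root of the Bernstein–Sato polynomial along a smooth locus: the expansion
-/

noncomputable section

namespace MPb07157SB

open MvPolynomial MPb07157 MPb07157.Sq

variable {k n : ℕ}

/-- `∫ φ F^(1-l)`, the coefficient of `x^γ`. -/
def br (Λ : KF k →ₗ[ℂ] ℂ) (F : MvPolynomial (Fin k) ℂ) (w : Fin k → ℕ) (N : ℕ)
    (ι : Fin k → Fin n) (γ : Fin n →₀ ℕ) (l : ℕ) (φ : MvPowerSeries (Fin n) ℂ) : ℂ :=
  match l with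
  | 0 => 0
  | l + 1 => Λ (io k (tr ι w γ (N * l) φ) / io k F ^ l)

/-- The data. -/
structure Dt (Λ : KF k →ₗ[ℂ] ℂ) (F : MvPolynomial (Fin k) ℂ) (w : Fin k → ℕ) (N : ℕ) (α : ℂ)
    (ι : Fin k → Fin n) (w1 w0 : Fin n → ℕ) (h : MvPowerSeries (Fin n) ℂ) : Prop where
  inj : Function.Injective ι
  ne : F ≠ 0
  hF : F.IsWeightedHomogeneous w N
  one : Λ 1 = 1
  hΛ : ∀ x ∈ SS F α, Λ x = 0
  hw : ∀ i, 0 < w i
  hwN : ∀ i, w i < N
  hN : 0 < N
  hw1 : ∀ i, w1 (ι i) = w i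
  hw0 : ∀ i, w0 (ι i) = w i
  hv0 : ∀ v, (∀ i, ι i ≠ v) → w0 v = 0
  h1 : Od w1 (N + 1) h
  h0 : Od w0 N h

/-- The image of `F`. -/
abbrev up (ι : Fin k → Fin n) (F : MvPolynomial (Fin k) ℂ) : MvPowerSeries (Fin n) ℂ :=
  ((rename ι F : MvPolynomial (Fin n) ℂ) : MvPowerSeries (Fin n) ℂ)

theorem wt_of_hom {w : Fin k → ℕ} {N : ℕ} {F : MvPolynomial (Fin k) ℂ}
    (hF : F.IsWeightedHomogeneous w N) : ∀ v ∈ F.support, wt w v = N := by
  intro v hv
  have h2 := hF (mem_support_iff.1 hv)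
  rw [Finsupp.weight_apply, Finsupp.sum_fintype v (fun i c => c • w i) (by simp)] at h2
  unfold wt
  rw [← h2]
  exact Finset.sum_congr rfl fun i _ => by rw [smul_eq_mul, mul_comm]

section br

variable {Λ : KF k →ₗ[ℂ] ℂ} {F : MvPolynomial (Fin k) ℂ} {w : Fin k → ℕ} {N : ℕ} {α : ℂ}
  {ι : Fin k → Fin n} {w1 w0 : Fin n → ℕ} {h : MvPowerSeries (Fin n) ℂ} {γ : Fin n →₀ ℕ}

theorem br_add (l : ℕ) (φ ψ : MvPowerSeries (Fin n) ℂ) :
    br Λ F w N ι γ l (φ + ψ) = br Λ F w N ι γ l φ + br Λ F w N ι γ l ψ := by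
  cases l with
  | zero => exact (add_zero _).symm
  | succ l =>
    show Λ _ = Λ _ + Λ _
    rw [tr_add, map_add, add_div, map_add]

theorem br_C_mul (l : ℕ) (c : ℂ) (φ : MvPowerSeries (Fin n) ℂ) :
    br Λ F w N ι γ l (MvPowerSeries.C c * φ) = c * br Λ F w N ι γ l φ := by
  cases l with
  | zero => exact (mul_zero _).symm
  | succ l =>
    show Λ _ = c * Λ _
    rw [tr_C_mul, map_mul, mul_div_assoc, ← smul_eq, map_smul, smul_eq_mul]

theorem Dt.eq_zero (D : Dt Λ F w N α ι w1 w0 h) {l : ℕ} {φ : MvPowerSeries (Fin n) ℂ}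
    (hφ : ∀ ν : Fin k →₀ ℕ, wt w ν + N = N * l →
      MvPowerSeries.coeff (Finsupp.mapDomain ι ν + γ) φ = 0) : br Λ F w N ι γ l φ = 0 := by
  cases l with
  | zero => rfl
  | succ l =>
    show Λ _ = 0
    rw [tr_eq_zero (fun ν hν => hφ ν (by rw [hν]; ring)) D.hw, map_zero, zero_div, map_zero]

/-- Vanishing by the total weight. -/
theorem Dt.van (D : Dt Λ F w N α ι w1 w0 h) {m j : ℕ} (φ : MvPowerSeries (Fin n) ℂ)
    (hj : N * m + wt w1 γ < j + N) : br Λ F w N ι γ (m + j) (φ * h ^ j) = 0 := by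
  refine D.eq_zero fun ν hν => ?_
  have h2 := (od_zero (w := w1) φ).mul (D.h1.pow j)
  refine h2 _ ?_
  rw [wt_add, wt_mapDomain D.inj D.hw1]
  have h3 : wt w ν + N = N * m + N * j := by rw [hν]; ring
  have := D.hN
  have h4 : (N + 1) * j = N * j + j := by ring
  rw [h4]
  omega

theorem wt0 (D : Dt Λ F w N α ι w1 w0 h) (hγ : ∀ i, γ (ι i) = 0) : wt w0 γ = 0 := by
  unfold wt
  refine Finset.sum_eq_zero fun v _ => ?_
  by_cases h : ∃ i, ι i = v
  · obtain ⟨i, rfl⟩ := h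
    rw [hγ, mul_zero]
  · push Not at h
    rw [D.hv0 v h, zero_mul]

/-- Vanishing by the weight in `u`. -/
theorem Dt.van0 (D : Dt Λ F w N α ι w1 w0 h) (hγ : ∀ i, γ (ι i) = 0) {m j e : ℕ}
    {φ : MvPowerSeries (Fin n) ℂ} (hφ : Od w0 e φ) (hj : N * m < e + N) :
    br Λ F w N ι γ (m + j) (φ * h ^ j) = 0 := by
  refine D.eq_zero fun ν hν => ?_
  have h2 := hφ.mul (D.h0.pow j)
  refine h2 _ ?_
  rw [wt_add, wt_mapDomain D.inj D.hw0, wt0 D hγ]
  have h3 : wt w ν + N = N * m + N * j := by rw [hν]; ring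
  omega

theorem Dt.br_up (D : Dt Λ F w N α ι w1 w0 h) (hγ : ∀ i, γ (ι i) = 0) (l : ℕ)
    (φ : MvPowerSeries (Fin n) ℂ) : br Λ F w N ι γ (l + 1) (up ι F * φ) = br Λ F w N ι γ l φ := by
  have hF : io k F ≠ 0 := io_ne_zero D.ne
  cases l with
  | zero =>
    refine D.eq_zero fun ν hν => ?_
    have hN := D.hN
    have h1 : Od w0 N (up ι F) := by
      intro β hβ
      rw [coeff_coe]
      by_contra hne
      obtain ⟨ν, rfl, hν⟩ := coeff_rename_ne_zero _ _ _ hne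
      rw [wt_mapDomain D.inj D.hw0, wt_of_hom D.hF ν (mem_support_iff.2 hν)] at hβ
      exact lt_irrefl _ hβ
    refine (h1.mul (od_zero φ)) _ ?_
    rw [wt_add, wt_mapDomain D.inj D.hw0, wt0 D hγ]
    omega
  | succ l =>
    show Λ (io k (tr ι w γ (N * (l + 1)) (up ι F * φ)) / io k F ^ (l + 1)) =
      Λ (io k (tr ι w γ (N * l) φ) / io k F ^ l)
    rw [show N * (l + 1) = N + N * l by ring, tr_mul D.inj hγ D.hw (wt_of_hom D.hF), map_mul,
      pow_succ', mul_div_mul_left _ _ hF]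

theorem Dt.br_ev (D : Dt Λ F w N α ι w1 w0 h) (hγ : ∀ i, γ (ι i) = 0) (l : ℕ) (i : Fin k)
    (φ : MvPowerSeries (Fin n) ℂ) :
    br Λ F w N ι γ (l + 2) (up ι F * MvPowerSeries.pderiv ℂ (ι i) φ -
      MvPowerSeries.C (α + l) * (φ * up ι (pderiv i F))) = 0 := by
  have hF : io k F ≠ 0 := io_ne_zero D.ne
  have hi := D.hwN i
  rw [sub_eq_add_neg, br_add, show -(MvPowerSeries.C (α + l) * (φ * up ι (pderiv i F))) =
    MvPowerSeries.C (-(α + l)) * (up ι (pderiv i F) * φ) by rw [map_neg]; ring, br_C_mul]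
  show Λ _ + -(α + l) * Λ _ = 0
  have h1 : (pderiv i F).IsWeightedHomogeneous w (N - w i) := D.hF.pderiv (by omega)
  have h2 := tr_mul (e := N * l) D.inj hγ D.hw (wt_of_hom D.hF) (MvPowerSeries.pderiv ℂ (ι i) φ)
  have h3 := tr_mul (e := N * l + w i) D.inj hγ D.hw (wt_of_hom h1) φ
  rw [show N - w i + (N * l + w i) = N * (l + 1) by rw [Nat.mul_succ]; omega] at h3
  rw [show N + N * l = N * (l + 1) by ring, tr_pderiv D.inj hγ D.hw] at h2
  rw [h2, h3]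
  set τ := tr ι w γ (N * l + w i) φ
  have h4 := D.hΛ _ (ev_mem F α l i τ)
  unfold Sq.ev at h4
  rw [map_sub, sub_div, map_sub, map_mul (io k) (C (α + l)), mul_div_assoc (io k (C (α + l))),
    ← smul_eq, map_smul, smul_eq_mul, mul_comm τ] at h4
  linear_combination h4

theorem Dt.br_pderiv (D : Dt Λ F w N α ι w1 w0 h) (l : ℕ) {v : Fin n} (hv : ∀ i, ι i ≠ v)
    (φ : MvPowerSeries (Fin n) ℂ) :
    br Λ F w N ι γ l (MvPowerSeries.pderiv ℂ v φ) = ((γ v : ℂ) + 1) * br Λ F w N ι (γ + Finsupp.single v 1) l φ := by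
  cases l with
  | zero => exact (mul_zero _).symm
  | succ l =>
    show Λ _ = _ * Λ _
    rw [tr_pderiv' D.hw hv, map_mul, mul_div_assoc, ← smul_eq, map_smul, smul_eq_mul]

theorem Dt.br_one (D : Dt Λ F w N α ι w1 w0 h) (φ : MvPowerSeries (Fin n) ℂ) :
    br Λ F w N ι 0 1 φ = MvPowerSeries.constantCoeff φ := by
  classical
  show Λ (io k (tr ι w 0 (N * 0) φ) / io k F ^ 0) = _
  have h1 : tr ι w 0 (N * 0) φ = C (MvPowerSeries.constantCoeff φ) := by
    ext ν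
    rw [coeff_tr D.hw, coeff_C, mul_zero]
    by_cases h : wt w ν = 0
    · have h2 : ν = 0 := by
        ext i
        by_contra hi
        have h4 := wt_le_of_ne (a := w) hi
        have := D.hw i
        omega
      subst h2
      rw [if_pos h, if_pos rfl, Finsupp.mapDomain_zero, add_zero]
      rfl
    · rw [if_neg h, if_neg]
      rintro rfl
      apply h
      simp [wt]
  rw [h1, pow_zero, div_one]
  have h2 : io k (C (MvPowerSeries.constantCoeff φ)) =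
      MvPowerSeries.constantCoeff φ • (1 : KF k) := by
    rw [smul_eq, mul_one]
  rw [h2, map_smul, D.one, smul_eq_mul, mul_one]

end br

end MPb07157SB
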