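import Pool.Agent.Lib.MP_b07157_agSB.Fn2

/-!
# A root of the Bernstein–Sato polynomial along a smooth locus: the induction
-/

noncomputable section

namespace MPb07157SB

open MvPolynomial MPb07157 MPb07157.Sq

variable {k n : ℕ}

variable {Λ : KF k →ₗ[ℂ] ℂ} {F : MvPolynomial (Fin k) ℂ} {w : Fin k → ℕ} {N : ℕ} {α : ℂ}
  {ι : Fin k → Fin n} {w1 w0 : Fin n → ℕ} {h : MvPowerSeries (Fin n) ℂ} {γ : Fin n →₀ ℕ}

/-- The coefficient of `x^γ` of the expansion of `∫ φ (F + h)^(1 - m - α)`. -/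
def LL (Λ : KF k →ₗ[ℂ] ℂ) (F : MvPolynomial (Fin k) ℂ) (w : Fin k → ℕ) (N : ℕ) (α : ℂ)
    (ι : Fin k → Fin n) (w1 : Fin n → ℕ) (h : MvPowerSeries (Fin n) ℂ) (γ : Fin n →₀ ℕ) (m : ℕ)
    (φ : MvPowerSeries (Fin n) ℂ) : ℂ :=
  ∑ j ∈ Finset.range (N * m + wt w1 γ), bc (1 - m - α) j * br Λ F w N ι γ (m + j) (φ * h ^ j)

theorem LL_add (m : ℕ) (φ ψ : MvPowerSeries (Fin n) ℂ) :
    LL Λ F w N α ι w1 h γ m (φ + ψ) = LL Λ F w N α ι w1 h γ m φ + LL Λ F w N α ι w1 h γ m ψ := by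
  unfold LL
  rw [← Finset.sum_add_distrib]
  refine Finset.sum_congr rfl fun j _ => ?_
  rw [add_mul, br_add, mul_add]

theorem LL_C_mul (m : ℕ) (c : ℂ) (φ : MvPowerSeries (Fin n) ℂ) :
    LL Λ F w N α ι w1 h γ m (MvPowerSeries.C c * φ) = c * LL Λ F w N α ι w1 h γ m φ := by
  unfold LL
  rw [Finset.mul_sum]
  refine Finset.sum_congr rfl fun j _ => ?_
  rw [mul_assoc (MvPowerSeries.C c), br_C_mul]
  ring

theorem Dt.LL_eq (D : Dt Λ F w N α ι w1 w0 h) {m J : ℕ} (hJ : N * m + wt w1 γ ≤ J)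
    (φ : MvPowerSeries (Fin n) ℂ) :
    LL Λ F w N α ι w1 h γ m φ = ∑ j ∈ Finset.range J, bc (1 - m - α) j * br Λ F w N ι γ (m + j) (φ * h ^ j) := by
  have hN := D.hN
  unfold LL
  refine Finset.sum_subset (Finset.range_mono hJ) fun j _ hj => ?_
  rw [Finset.mem_range, not_lt] at hj
  rw [D.van φ (by omega), mul_zero]

theorem Dt.LL_zero (D : Dt Λ F w N α ι w1 w0 h) (hγ : ∀ i, γ (ι i) = 0)
    (φ : MvPowerSeries (Fin n) ℂ) : LL Λ F w N α ι w1 h γ 0 φ = 0 := by
  have hN := D.hN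
  unfold LL
  refine Finset.sum_eq_zero fun j _ => ?_
  rw [D.van0 hγ (od_zero φ) (by omega), mul_zero]

theorem Dt.LL_one (D : Dt Λ F w N α ι w1 w0 h) (φ : MvPowerSeries (Fin n) ℂ) :
    LL Λ F w N α ι w1 h 0 1 φ = MvPowerSeries.constantCoeff φ := by
  have hN := D.hN
  have h0 : wt w1 (0 : Fin n →₀ ℕ) = 0 := by simp [wt]
  rw [D.LL_eq (J := N) (by rw [h0]; omega)]
  obtain ⟨M, rfl⟩ : ∃ M, N = M + 1 := ⟨N - 1, by omega⟩
  rw [Finset.sum_range_succ', Finset.sum_eq_zero, zero_add, bc_zero, one_mul, pow_zero, mul_one,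
    add_zero, D.br_one]
  intro j _
  rw [D.van φ (by rw [h0]; omega), mul_zero]

/-- Multiplication by `F + h`. -/
theorem Dt.LL_mul (D : Dt Λ F w N α ι w1 w0 h) (hγ : ∀ i, γ (ι i) = 0) (m : ℕ)
    (φ : MvPowerSeries (Fin n) ℂ) : LL Λ F w N α ι w1 h γ (m + 1) ((up ι F + h) * φ) = LL Λ F w N α ι w1 h γ m φ := by
  have hN := D.hN
  have e1 : (1 - ((m + 1 : ℕ) : ℂ) - α) = -m - α := by push_cast; ring
  have e2 : (1 - (m : ℂ) - α) = (-m - α) + 1 := by ring
  set T : ℕ → ℂ := fun j => br Λ F w N ι γ (m + j) (φ * h ^ j) with hT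
  obtain ⟨J, hJ⟩ : ∃ J, J = N * (m + 1) + wt w1 γ := ⟨_, rfl⟩
  rw [D.LL_eq (J := J + 1) (by omega), D.LL_eq (m := m) (J := J + 1) (by rw [hJ]; nlinarith), e1,
    e2]
  have h1 : ∀ j, br Λ F w N ι γ (m + 1 + j) ((up ι F + h) * φ * h ^ j) = T j + T (j + 1) := by
    intro j
    have e3 : (up ι F + h) * φ * h ^ j = up ι F * (φ * h ^ j) + φ * h ^ (j + 1) := by ring
    rw [e3, br_add, show m + 1 + j = m + j + 1 by ring, D.br_up hγ]
    rfl
  simp only [h1]
  rw [sum_pascal]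
  have h2 : T (J + 1) = 0 := D.van φ (by rw [hJ]; nlinarith)
  rw [h2, mul_zero, add_zero]

theorem pderiv_up (hι : Function.Injective ι) (P : MvPolynomial (Fin k) ℂ) (i : Fin k) :
    MvPowerSeries.pderiv ℂ (ι i) (up ι P) = up ι (pderiv i P) := by
  unfold up
  rw [MvPowerSeries.pderiv_coe, pderiv_rename hι]

theorem pderiv_up' (P : MvPolynomial (Fin k) ℂ) {v : Fin n} (hv : ∀ i, ι i ≠ v) :
    MvPowerSeries.pderiv ℂ v (up ι P) = 0 := by
  classical
  ext β
  rw [MvPowerSeries.coeff_pderiv, map_zero, coeff_coe]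
  by_cases hne : coeff (β + Finsupp.single v 1) (rename ι P) = 0
  · rw [hne, zero_mul]
  · obtain ⟨ν, hν, -⟩ := coeff_rename_ne_zero _ _ _ hne
    have h1 : (Finsupp.mapDomain ι ν) v = 0 := by
      refine Finsupp.mapDomain_of_notMem_range _ _ ?_
      rintro ⟨i, hi⟩
      exact hv i hi
    rw [hν, Finsupp.add_apply, Finsupp.single_eq_same] at h1
    omega

theorem Dt.od_up (D : Dt Λ F w N α ι w1 w0 h) : Od w0 N (up ι F) := by
  intro β hβ
  rw [coeff_coe]
  by_contra hne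
  obtain ⟨ν, rfl, hν⟩ := coeff_rename_ne_zero _ _ _ hne
  rw [wt_mapDomain D.inj D.hw0, wt_of_hom D.hF ν (mem_support_iff.2 hν)] at hβ
  exact lt_irrefl _ hβ

theorem Dt.LL_one_of_od (D : Dt Λ F w N α ι w1 w0 h) (hγ : ∀ i, γ (ι i) = 0)
    {φ : MvPowerSeries (Fin n) ℂ} (hφ : Od w0 1 φ) : LL Λ F w N α ι w1 h γ 1 φ = 0 := by
  have hN := D.hN
  unfold LL
  refine Finset.sum_eq_zero fun j _ => ?_
  rw [D.van0 hγ hφ (by omega), mul_zero]

/-- Derivatives in `v`. -/
theorem Dt.LL_deriv' (D : Dt Λ F w N α ι w1 w0 h) (hγ : ∀ i, γ (ι i) = 0) (m : ℕ) {v : Fin n}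
    (hv : ∀ i, ι i ≠ v) (φ : MvPowerSeries (Fin n) ℂ) :
    LL Λ F w N α ι w1 h γ (m + 1) ((up ι F + h) * MvPowerSeries.pderiv ℂ v φ +
      MvPowerSeries.C (1 - m - α) * (φ * MvPowerSeries.pderiv ℂ v (up ι F + h))) =
      ((γ v : ℂ) + 1) * LL Λ F w N α ι w1 h (γ + Finsupp.single v 1) m φ := by
  have hN := D.hN
  set a : ℂ := -(m : ℂ) - α with ha
  have e1 : (1 - ((m + 1 : ℕ) : ℂ) - α) = a := by rw [ha]; push_cast; ring
  have e2 : (1 - (m : ℂ) - α) = a + 1 := by rw [ha]; ring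
  obtain ⟨J, hJ⟩ : ∃ J, J = N * (m + 1) + wt w1 γ + w1 v := ⟨_, rfl⟩
  have hJ' : N * m + wt w1 (γ + Finsupp.single v 1) ≤ J := by
    rw [wt_add, wt_single, hJ]
    nlinarith
  rw [D.LL_eq (J := J + 1) (by omega), D.LL_eq (J := J + 1) (by omega), e1, e2, Finset.mul_sum]
  set dh := MvPowerSeries.pderiv ℂ v h with hdh
  set A : ℕ → ℂ := fun j => br Λ F w N ι γ (m + 1 + j) (φ * h ^ j * dh) with hA
  set T : ℕ → ℂ := fun j => br Λ F w N ι γ (m + j) (MvPowerSeries.pderiv ℂ v φ * h ^ j) with hT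
  have h1 : ∀ j, br Λ F w N ι γ (m + 1 + j) (((up ι F + h) * MvPowerSeries.pderiv ℂ v φ +
      MvPowerSeries.C (a + 1) * (φ * MvPowerSeries.pderiv ℂ v (up ι F + h))) * h ^ j) =
      (T j + T (j + 1)) + (a + 1) * A j := by
    intro j
    have e3 : ((up ι F + h) * MvPowerSeries.pderiv ℂ v φ +
        MvPowerSeries.C (a + 1) * (φ * MvPowerSeries.pderiv ℂ v (up ι F + h))) * h ^ j =
        (up ι F * (MvPowerSeries.pderiv ℂ v φ * h ^ j) +
          MvPowerSeries.pderiv ℂ v φ * h ^ (j + 1)) +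
          MvPowerSeries.C (a + 1) * (φ * h ^ j * dh) := by
      rw [map_add (MvPowerSeries.pderiv ℂ v) (up ι F) h, pderiv_up' F hv]
      ring
    rw [e3, br_add, br_add, br_C_mul, show m + 1 + j = m + j + 1 by ring, D.br_up hγ]
    simp only [hA, hT, show m + 1 + j = m + j + 1 by ring]
    rfl
  have h2 : ∀ j, ((γ v : ℂ) + 1) * (bc (a + 1) j *
      br Λ F w N ι (γ + Finsupp.single v 1) (m + j) (φ * h ^ j)) =
      bc (a + 1) j * T j + (j : ℂ) * bc (a + 1) j * A (j - 1) := by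
    intro j
    have h3 := D.br_pderiv (γ := γ) (m + j) hv (φ * h ^ j)
    have h4 : br Λ F w N ι γ (m + j) (MvPowerSeries.pderiv ℂ v (φ * h ^ j)) = T j + j * A (j - 1) := by
      rcases Nat.eq_zero_or_pos j with rfl | hj
      · simp only [pow_zero, mul_one, hT, Nat.cast_zero, zero_mul, add_zero]
      · obtain ⟨r, rfl⟩ : ∃ r, j = r + 1 := ⟨j - 1, by omega⟩
        have e4 : MvPowerSeries.pderiv ℂ v (φ * h ^ (r + 1)) =
            MvPowerSeries.pderiv ℂ v φ * h ^ (r + 1) +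
              MvPowerSeries.C ((r : ℂ) + 1) * (φ * h ^ r * dh) := by
          rw [Derivation.leibniz, Derivation.leibniz_pow, smul_eq_mul, smul_eq_mul, smul_eq_mul,
            Nat.add_sub_cancel, nsmul_eq_mul, ← hdh]
          have e5 : (MvPowerSeries.C ((r : ℂ) + 1) : MvPowerSeries (Fin n) ℂ) =
              ((r + 1 : ℕ) : MvPowerSeries (Fin n) ℂ) := by
            push_cast
            rw [map_add, map_one, map_natCast]
          rw [e5]
          ring
        rw [e4, br_add, br_C_mul]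
        simp only [hA, hT, Nat.add_sub_cancel, show m + (r + 1) = m + 1 + r by ring]
        push_cast
        ring
    rw [h4] at h3
    linear_combination (-bc (a + 1) j) * h3
  rw [Finset.sum_congr rfl fun j _ => by rw [h1 j], Finset.sum_congr rfl fun j _ => h2 j]
  have h4 : ∑ j ∈ Finset.range (J + 1), bc a j * (T j + T (j + 1) + (a + 1) * A j) =
      ∑ j ∈ Finset.range (J + 1), bc a j * (T j + T (j + 1)) +
        ∑ j ∈ Finset.range (J + 1), (a + 1) * bc a j * A j := by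
    rw [← Finset.sum_add_distrib]
    exact Finset.sum_congr rfl fun j _ => by ring
  have hT0 : T (J + 1) = 0 := D.van _ (by rw [hJ]; nlinarith)
  have hAJ : A J = 0 := by
    have h9 := D.van (γ := γ) (m := m + 1) (j := J) (φ * dh) (by rw [hJ]; omega)
    rw [← h9]
    simp only [hA]
    congr 1
    ring
  rw [h4, sum_pascal, hT0, mul_zero, add_zero, Finset.sum_add_distrib]
  congr 1
  rw [Finset.sum_range_succ, hAJ, mul_zero, add_zero, Finset.sum_range_succ' _ J]
  simp only [Nat.add_sub_cancel, Nat.cast_zero, zero_mul, add_zero]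
  refine Finset.sum_congr rfl fun j _ => ?_
  rw [← bc_A]
  push_cast
  ring

/-- Derivatives in `u`. -/
theorem Dt.LL_deriv (D : Dt Λ F w N α ι w1 w0 h) (hγ : ∀ i, γ (ι i) = 0) (m : ℕ) (i : Fin k)
    (φ : MvPowerSeries (Fin n) ℂ) :
    LL Λ F w N α ι w1 h γ (m + 1) ((up ι F + h) * MvPowerSeries.pderiv ℂ (ι i) φ +
      MvPowerSeries.C (1 - m - α) * (φ * MvPowerSeries.pderiv ℂ (ι i) (up ι F + h))) = 0 := by
  have hN := D.hN
  have hwN := D.hwN i
  rcases Nat.eq_zero_or_pos m with rfl | hm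
  · have hu := D.od_up
    refine D.LL_one_of_od hγ (Od.add ?_ ?_)
    · exact ((hu.add D.h0).mul (od_zero _)).mono (by omega)
    · have h1 := (hu.add D.h0).pderiv (ι i)
      rw [D.hw0] at h1
      exact ((od_zero _).mul ((od_zero _).mul h1)).mono (by omega)
  · obtain ⟨l, rfl⟩ : ∃ l, m = l + 1 := ⟨m - 1, by omega⟩
    set a : ℂ := -((l + 1 : ℕ) : ℂ) - α with ha
    have e1 : (1 - ((l + 1 + 1 : ℕ) : ℂ) - α) = a := by rw [ha]; push_cast; ring
    have e2 : (1 - ((l + 1 : ℕ) : ℂ) - α) = a + 1 := by rw [ha]; ring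
    obtain ⟨J, hJ⟩ : ∃ J, J = N * (l + 1 + 1) + wt w1 γ := ⟨_, rfl⟩
    rw [D.LL_eq (J := J + 1) (by omega), e1, e2]
    set dφ := MvPowerSeries.pderiv ℂ (ι i) φ with hdφ
    set dh := MvPowerSeries.pderiv ℂ (ι i) h with hdh
    set dF := up ι (pderiv i F) with hdF
    set A : ℕ → ℂ := fun j => br Λ F w N ι γ (l + 1 + 1 + j) (φ * h ^ j * dh) with hA
    set B : ℕ → ℂ := fun j => br Λ F w N ι γ (l + 1 + 1 + j) (φ * h ^ j * dF) with hB
    set T : ℕ → ℂ := fun j => br Λ F w N ι γ (l + 1 + j) (dφ * h ^ j) with hT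
    have h1 : ∀ j, br Λ F w N ι γ (l + 1 + 1 + j) (((up ι F + h) * dφ +
        MvPowerSeries.C (a + 1) * (φ * MvPowerSeries.pderiv ℂ (ι i) (up ι F + h))) * h ^ j) =
        (T j + T (j + 1)) + (a + 1) * B j + (a + 1) * A j := by
      intro j
      have e3 : ((up ι F + h) * dφ +
          MvPowerSeries.C (a + 1) * (φ * MvPowerSeries.pderiv ℂ (ι i) (up ι F + h))) * h ^ j =
          (up ι F * (dφ * h ^ j) + dφ * h ^ (j + 1)) +
            MvPowerSeries.C (a + 1) * (φ * h ^ j * dF) +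
            MvPowerSeries.C (a + 1) * (φ * h ^ j * dh) := by
        rw [map_add (MvPowerSeries.pderiv ℂ (ι i)) (up ι F) h, pderiv_up D.inj]
        ring
      rw [e3, br_add, br_add, br_add, br_C_mul, br_C_mul,
        show l + 1 + 1 + j = l + 1 + j + 1 by ring, D.br_up hγ]
      simp only [hA, hB, hT, show l + 1 + 1 + j = l + 1 + j + 1 by ring]
      rfl
    -- the total derivative of `φ h ^ j`
    have h2 : ∀ j, T j = -((j : ℂ) * A (j - 1)) - (a + 1 - j) * B j := by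
      intro j
      have h3 := D.br_ev hγ (l + j) i (φ * h ^ j)
      rcases Nat.eq_zero_or_pos j with rfl | hj
      · have e4 : up ι F * MvPowerSeries.pderiv ℂ (ι i) (φ * h ^ 0) -
            MvPowerSeries.C (α + ((l + 0 : ℕ) : ℂ)) * (φ * h ^ 0 * dF) =
              up ι F * (dφ * h ^ 0) + MvPowerSeries.C (a + 1) * (φ * h ^ 0 * dF) := by
          have e5 : a + 1 = -(α + ((l + 0 : ℕ) : ℂ)) := by
            rw [ha]
            push_cast
            ring
          rw [e5, map_neg, pow_zero, mul_one, mul_one]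
          ring
        rw [e4, br_add, br_C_mul, show l + 0 + 2 = l + 1 + 0 + 1 by ring, D.br_up hγ] at h3
        simp only [hA, hB, hT]
        push_cast
        rw [show l + 1 + 1 + 0 = l + 1 + 0 + 1 by ring]
        linear_combination h3
      · obtain ⟨r, rfl⟩ : ∃ r, j = r + 1 := ⟨j - 1, by omega⟩
        have e4 : up ι F * MvPowerSeries.pderiv ℂ (ι i) (φ * h ^ (r + 1)) -
            MvPowerSeries.C (α + ((l + (r + 1) : ℕ) : ℂ)) * (φ * h ^ (r + 1) * dF) =
              up ι F * (dφ * h ^ (r + 1)) +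
              MvPowerSeries.C ((r : ℂ) + 1) * (up ι F * (φ * h ^ r * dh)) +
              MvPowerSeries.C (a + 1 - (r + 1)) * (φ * h ^ (r + 1) * dF) := by
          have e5 : (MvPowerSeries.C ((r : ℂ) + 1) : MvPowerSeries (Fin n) ℂ) =
              ((r + 1 : ℕ) : MvPowerSeries (Fin n) ℂ) := by
            push_cast
            rw [map_add, map_one, map_natCast]
          have e6 : a + 1 - (r + 1) = -(α + ((l + (r + 1) : ℕ) : ℂ)) := by
            rw [ha]
            push_cast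
            ring
          rw [Derivation.leibniz, Derivation.leibniz_pow, smul_eq_mul, smul_eq_mul, smul_eq_mul,
            Nat.add_sub_cancel, nsmul_eq_mul, ← hdh, ← hdφ, e5, e6, map_neg]
          ring
        rw [e4, br_add, br_add, br_C_mul, br_C_mul, show l + (r + 1) + 2 = l + 1 + (r + 1) + 1 by
          ring, D.br_up hγ, D.br_up hγ] at h3
        simp only [hA, hB, hT, Nat.add_sub_cancel]
        rw [show l + 1 + 1 + (r + 1) = l + 1 + (r + 1) + 1 by ring,
          show l + 1 + 1 + r = l + 1 + (r + 1) by ring]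
        push_cast
        linear_combination h3
    rw [Finset.sum_congr rfl fun j _ => by rw [h1 j]]
    have h4 : ∑ j ∈ Finset.range (J + 1), bc a j * (T j + T (j + 1) + (a + 1) * B j +
        (a + 1) * A j) = ∑ j ∈ Finset.range (J + 1), bc a j * (T j + T (j + 1)) +
          ∑ j ∈ Finset.range (J + 1), (a + 1) * bc a j * (B j + A j) := by
      rw [← Finset.sum_add_distrib]
      exact Finset.sum_congr rfl fun j _ => by ring
    have hT0 : T (J + 1) = 0 := D.van _ (by rw [hJ]; nlinarith)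
    rw [h4, sum_pascal, hT0, mul_zero, add_zero, ← Finset.sum_add_distrib]
    have h5 : ∀ j, bc (a + 1) j * T j + (a + 1) * bc a j * (B j + A j) =
        (a + 1) * bc a j * A j - (j : ℂ) * bc (a + 1) j * A (j - 1) := by
      intro j
      have h6 := bc_A a j
      rw [h2 j]
      have h7 := bc_succ (a + 1) j
      linear_combination B j * h7 - B j * h6
    rw [Finset.sum_congr rfl fun j _ => h5 j, Finset.sum_sub_distrib]
    have hAJ : A J = 0 := by
      have h9 := D.van (γ := γ) (m := l + 1 + 1) (j := J) (φ * dh) (by rw [hJ]; omega)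
      rw [← h9]
      simp only [hA]
      congr 1
      ring
    rw [Finset.sum_range_succ, hAJ, mul_zero, add_zero, Finset.sum_range_succ' _ J]
    simp only [Nat.add_sub_cancel, Nat.cast_zero, zero_mul, add_zero]
    rw [sub_eq_zero]
    refine Finset.sum_congr rfl fun j _ => ?_
    rw [← bc_A]
    push_cast
    ring

end MPb07157SB
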