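import Pool.Agent.Lib.MP_b07157_agSB.Fn3

/-!
# A root of the Bernstein–Sato polynomial along a smooth locus: the root
-/

noncomputable section

namespace MPb07157SB

open MvPolynomial MPb07157 MPb07157.Sq

variable {k n : ℕ}

/-- Evaluation at `s = a`. -/
def evP (n : ℕ) (a : ℂ) : Polynomial (MvPowerSeries (Fin n) ℂ) →+* MvPowerSeries (Fin n) ℂ :=
  Polynomial.evalRingHom (MvPowerSeries.C a)

theorem evP_C (a : ℂ) (φ : MvPowerSeries (Fin n) ℂ) : evP n a (Polynomial.C φ) = φ :=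
  Polynomial.eval_C

theorem evP_X (a : ℂ) : evP n a Polynomial.X = MvPowerSeries.C a := Polynomial.eval_X

theorem evP_map (a : ℂ) (b : Polynomial ℂ) :
    evP n a (b.map (MvPowerSeries.C (σ := Fin n) (R := ℂ))) = MvPowerSeries.C (b.eval a) := by
  show Polynomial.eval _ _ = _
  rw [Polynomial.eval_map, Polynomial.eval₂_at_apply]

theorem evP_derivC (a : ℂ) (i : Fin n) (g : Polynomial (MvPowerSeries (Fin n) ℂ)) :
    evP n a (derivC i g) = MvPowerSeries.pderiv ℂ i (evP n a g) := by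
  induction g using Polynomial.induction_on' with
  | add p q hp hq => rw [derivC_add, map_add, map_add, map_add, hp, hq]
  | monomial m φ =>
    have h1 : derivC i (Polynomial.monomial m φ) =
        Polynomial.monomial m (MvPowerSeries.pderiv ℂ i φ) := by
      refine Polynomial.ext fun j => ?_
      rw [coeff_derivC, Polynomial.coeff_monomial, Polynomial.coeff_monomial]
      split_ifs
      · rfl
      · exact map_zero _
    rw [h1]
    show Polynomial.eval _ _ = MvPowerSeries.pderiv ℂ i (Polynomial.eval _ _)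
    rw [Polynomial.eval_monomial, Polynomial.eval_monomial, ← map_pow, mul_comm,
      mul_comm φ, ← MvPowerSeries.smul_eq_C_mul, ← MvPowerSeries.smul_eq_C_mul,
      Derivation.map_smul]

theorem evP_deriv (α : ℂ) (m : ℕ) (i : Fin n) (G φ : MvPowerSeries (Fin n) ℂ)
    (g : Polynomial (MvPowerSeries (Fin n) ℂ)) :
    φ * evP n (-α) (Polynomial.C G * derivC i g +
        (Polynomial.X + 1 - (m : Polynomial (MvPowerSeries (Fin n) ℂ))) *
          Polynomial.C (MvPowerSeries.pderiv ℂ i G) * g) =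
        (G * MvPowerSeries.pderiv ℂ i (φ * evP n (-α) g) +
          MvPowerSeries.C (1 - m - α) * (φ * evP n (-α) g * MvPowerSeries.pderiv ℂ i G)) +
          MvPowerSeries.C (-1) * (G * (MvPowerSeries.pderiv ℂ i φ * evP n (-α) g)) := by
  have e3 : evP n (-α) ((Polynomial.X + 1 - (m : Polynomial (MvPowerSeries (Fin n) ℂ)))) =
      MvPowerSeries.C (-α) + 1 - (m : MvPowerSeries (Fin n) ℂ) := by
    rw [map_sub, map_add, map_one, map_natCast, evP_X]
  have e2 : (MvPowerSeries.C (1 - m - α) : MvPowerSeries (Fin n) ℂ) =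
      MvPowerSeries.C (-α) + 1 - (m : MvPowerSeries (Fin n) ℂ) := by
    rw [show (1 - m - α : ℂ) = -α + 1 - m by ring, map_sub, map_add, map_one, map_natCast]
  have e4 : (MvPowerSeries.C (-1) : MvPowerSeries (Fin n) ℂ) = -1 := by
    rw [map_neg, map_one]
  rw [map_add, map_mul, map_mul, map_mul, e3, e2, e4, evP_C, evP_C, evP_derivC,
    Derivation.leibniz, smul_eq_mul, smul_eq_mul]
  ring

variable {Λ : KF k →ₗ[ℂ] ℂ} {F : MvPolynomial (Fin k) ℂ} {w : Fin k → ℕ} {N : ℕ} {α : ℂ}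
  {ι : Fin k → Fin n} {w1 w0 : Fin n → ℕ} {h : MvPowerSeries (Fin n) ℂ}

/-- The functionals vanish on `D[s] G^(s+1)` at `s = -α`. -/
theorem Dt.inPs (D : Dt Λ F w N α ι w1 w0 h) {m : ℕ} {g : Polynomial (MvPowerSeries (Fin n) ℂ)}
    (hg : InPs (up ι F + h) m g) : ∀ γ : Fin n →₀ ℕ, (∀ i, γ (ι i) = 0) →
      ∀ φ : MvPowerSeries (Fin n) ℂ, LL Λ F w N α ι w1 h γ m (φ * evP n (-α) g) = 0 := by
  induction hg with
  | base => exact fun γ hγ φ => D.LL_zero hγ _
  | add _ _ ih ih' =>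
    intro γ hγ φ
    rw [map_add, mul_add, LL_add, ih γ hγ, ih' γ hγ, add_zero]
  | mul c _ ih =>
    intro γ hγ φ
    rw [map_mul, ← mul_assoc, ih γ hγ]
  | @deriv m g i _ ih =>
    intro γ hγ φ
    rw [evP_deriv, LL_add, LL_C_mul, D.LL_mul hγ, ih γ hγ, mul_zero, add_zero]
    by_cases hi : ∃ j, ι j = i
    · obtain ⟨j, rfl⟩ := hi
      exact D.LL_deriv hγ m j _
    · push Not at hi
      rw [D.LL_deriv' hγ m hi, ih, mul_zero]
      intro j
      rw [Finsupp.add_apply, hγ, zero_add, Finsupp.single_apply, if_neg]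
      exact fun hh => hi j hh.symm
  | raise _ ih =>
    intro γ hγ φ
    rw [map_mul, evP_C, mul_left_comm, D.LL_mul hγ, ih γ hγ]
  | @lower m g _ ih =>
    intro γ hγ φ
    have h1 := ih γ hγ φ
    rw [map_mul, evP_C, mul_left_comm, D.LL_mul hγ] at h1
    exact h1

/-- **The root `-|w|/N` along a smooth locus.** `G = F(u) + h` with `F` weighted homogeneous of
weight `N`, all terms of `h` of weight at least `N` in `u` and of total weight larger than `N`
(the other variables having weight one). -/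
theorem root_of_inPs {w : Fin k → ℕ} (hw : ∀ i, 0 < w i) {N : ℕ} (hwN : ∀ i, w i < N) (hN : 0 < N)
    {F : MvPolynomial (Fin k) ℂ} (hF0 : F ≠ 0) (hF : F.IsWeightedHomogeneous w N) {α : ℂ}
    (hne : NonEx F α) {ι : Fin k → Fin n} (hι : Function.Injective ι) {w1 w0 : Fin n → ℕ}
    (hw1 : ∀ i, w1 (ι i) = w i) (hw0 : ∀ i, w0 (ι i) = w i)
    (hv0 : ∀ v, (∀ i, ι i ≠ v) → w0 v = 0) {h : MvPowerSeries (Fin n) ℂ} (h1 : Od w1 (N + 1) h)
    (h0 : Od w0 N h) {b : Polynomial ℂ}
    (hb : InPs (up ι F + h) 1 (b.map (MvPowerSeries.C (σ := Fin n) (R := ℂ)))) :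
    b.eval (-α) = 0 := by
  obtain ⟨Λ, h2, h3⟩ := Sq.exists_functional hF0 hne
  have D : Dt Λ F w N α ι w1 w0 h := ⟨hι, hF0, hF, h2, h3, hw, hwN, hN, hw1, hw0, hv0, h1, h0⟩
  have h4 := D.inPs hb 0 (fun _ => rfl) 1
  rw [one_mul, D.LL_one, evP_map, MvPowerSeries.constantCoeff_C] at h4
  exact h4

end MPb07157SB
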